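import Pool.Agent.H28.AP.Fin

set_option autoImplicit false
open scoped Pointwise

namespace Pool.Agent.Results.MP_71837e_co.AntipodalTriple

/-- `x` and `y` lie on two distinct parallel supporting lines of `K` (for points of `K`): on the
lines where the linear functional `f` has the values `f x` and `f y`. -/
def Antipodal (K : Set (EuclideanSpace ℝ (Fin 2))) (x y : EuclideanSpace ℝ (Fin 2)) : Prop :=
  ∃ f : EuclideanSpace ℝ (Fin 2) →ₗ[ℝ] ℝ, f x < f y ∧ ∀ v ∈ K, f x ≤ f v ∧ f v ≤ f y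

/-- `p, q, r` are pairwise antipodal points of `K`. -/
structure Antipodal3 (K : Set (EuclideanSpace ℝ (Fin 2))) (p q r : EuclideanSpace ℝ (Fin 2)) :
    Prop where
  hp : p ∈ K
  hq : q ∈ K
  hr : r ∈ K
  pq : Antipodal K p q
  pr : Antipodal K p r
  qr : Antipodal K q r

/-- The translates of `K` by `a` and by `b` have a common point. -/
def Meet (K : Set (EuclideanSpace ℝ (Fin 2))) (a b : EuclideanSpace ℝ (Fin 2)) : Prop :=
  ((a +ᵥ K) ∩ (b +ᵥ K)).Nonempty

/-- If `K` has three pairwise antipodal points and all families, except possibly two of them (`p`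
and `q`), are pairwise intersecting, then three points pierce all families but one.  For `n = 2` the
condition on the families is empty. -/
theorem result :
    ∀ (n : ℕ), 2 ≤ n →
    ∀ (K : Set (EuclideanSpace ℝ (Fin 2))), IsCompact K → Convex ℝ K →
    (∃ x y z, Antipodal3 K x y z) →
    ∀ (F : Fin n → Set (EuclideanSpace ℝ (Fin 2))),
      (∀ i, (F i).Nonempty) →
      (∀ i j : Fin n, i ≠ j → ∀ a ∈ F i, ∀ b ∈ F j, Meet K a b) →
      ∀ p q : Fin n, (∀ i : Fin n, i ≠ p → i ≠ q → ∀ a ∈ F i, ∀ b ∈ F i, Meet K a b) →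
      ∃ m : Fin n, ∃ P : Finset (EuclideanSpace ℝ (Fin 2)), P.card ≤ 3 ∧
        ∀ i : Fin n, i ≠ m → ∀ a ∈ F i, ∃ w ∈ P, w ∈ a +ᵥ K := by
  intro n hn K hK hKc h3 F hF hint p q hsame
  obtain ⟨x, y, z, hx, hy, hz, hxy, hxz, hyz⟩ := h3
  exact AP.fin n hn K hK hKc ⟨x, y, z, ⟨hx, hy, hz, hxy, hxz, hyz⟩⟩ F hF hint p q hsame

end Pool.Agent.Results.MP_71837e_co.AntipodalTriple
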