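import Mathlib

set_option autoImplicit false
open scoped Pointwise

namespace Pool.Agent.Results.MP_71837e_co.FourPoints

/-- One functional: the total range of nonempty families of reals whose members from different
families differ by at most `W`. Apart from one family `c`, everything lies in a shorter interval. -/
lemma one_dim {n : ℕ} (hn : 2 ≤ n) (S : Fin n → Set ℝ) (hS : ∀ i, (S i).Nonempty) (W : ℝ)
    (h : ∀ i j : Fin n, i ≠ j → ∀ s ∈ S i, ∀ t ∈ S j, s - t ≤ W) :
    ∃ x ε : ℝ, ∃ c : Fin n, 0 ≤ ε ∧ (∀ i, ∀ s ∈ S i, x ≤ s ∧ s ≤ x + W + ε) ∧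
      (∀ i, i ≠ c → ∀ s ∈ S i, x + ε ≤ s ∧ s ≤ x + W) := by
  classical
  have hother : ∀ i : Fin n, ∃ j : Fin n, i ≠ j := by
    intro i
    by_cases hi : i = ⟨0, by omega⟩
    · refine ⟨⟨1, by omega⟩, ?_⟩
      rw [hi]; intro h0; simp at h0
    · exact ⟨⟨0, by omega⟩, hi⟩
  set U : Set ℝ := ⋃ i, S i with hU
  have hUne : U.Nonempty := by
    obtain ⟨s, hs⟩ := hS ⟨0, by omega⟩
    exact ⟨s, Set.mem_iUnion.2 ⟨_, hs⟩⟩
  have hbA : BddAbove U := by
    have key := ((Set.finite_univ (α := Fin n)).bddAbove_biUnion (S := S)).2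
    have hUe : U = ⋃ i ∈ (Set.univ : Set (Fin n)), S i := by simp [hU]
    rw [hUe]
    refine key ?_
    rintro i -
    obtain ⟨j, hij⟩ := hother i
    obtain ⟨t, ht⟩ := hS j
    refine ⟨t + W, fun s hs => ?_⟩
    have := h i j hij s hs t ht
    linarith
  have hbB : BddBelow U := by
    have key := ((Set.finite_univ (α := Fin n)).bddBelow_biUnion (S := S)).2
    have hUe : U = ⋃ i ∈ (Set.univ : Set (Fin n)), S i := by simp [hU]
    rw [hUe]
    refine key ?_
    rintro i -
    obtain ⟨j, hij⟩ := hother i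
    obtain ⟨t, ht⟩ := hS j
    refine ⟨t - W, fun s hs => ?_⟩
    have := h j i hij.symm t ht s hs
    linarith
  set a := sSup U with ha
  set b := sInf U with hb
  have hmem : ∀ i, ∀ s ∈ S i, b ≤ s ∧ s ≤ a := fun i s hs =>
    ⟨csInf_le hbB (Set.mem_iUnion.2 ⟨i, hs⟩), le_csSup hbA (Set.mem_iUnion.2 ⟨i, hs⟩)⟩
  by_cases hr : a - b ≤ W
  · refine ⟨b, 0, ⟨0, by omega⟩, le_rfl, ?_, ?_⟩
    · intro i s hs
      have := hmem i s hs
      constructor <;> linarith [this.1, this.2]
    · intro i _ s hs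
      have := hmem i s hs
      constructor <;> linarith [this.1, this.2]
  · push Not at hr
    set η := (a - b - W) / 2 with hη
    have hηpos : 0 < η := by rw [hη]; linarith
    obtain ⟨s0, hs0, hs0'⟩ := exists_lt_of_lt_csSup hUne (show a - η < sSup U by rw [← ha]; linarith)
    obtain ⟨c, hc⟩ := Set.mem_iUnion.1 hs0
    -- low points belong to `c`
    have hlow : ∀ t ∈ U, t < b + η → t ∈ S c := by
      intro t ht htb
      obtain ⟨j, hj⟩ := Set.mem_iUnion.1 ht
      by_cases hjc : c = j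
      · rw [hjc]; exact hj
      · exfalso
        have := h c j hjc s0 hc t hj
        linarith
    obtain ⟨t0, ht0, ht0'⟩ := exists_lt_of_csInf_lt hUne (show sInf U < b + η by rw [← hb]; linarith)
    have hhigh : ∀ s ∈ U, a - η < s → s ∈ S c := by
      intro s hs hsa
      obtain ⟨j, hj⟩ := Set.mem_iUnion.1 hs
      by_cases hjc : j = c
      · rw [← hjc]; exact hj
      · exfalso
        have := h j c hjc s hj t0 (hlow t0 ht0 ht0')
        linarith
    refine ⟨b, a - b - W, c, by linarith, ?_, ?_⟩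
    · intro i s hs
      have := hmem i s hs
      constructor <;> linarith [this.1, this.2]
    · intro i hic s hs
      constructor
      · by_contra hcon
        push Not at hcon
        -- find s' in U with s' > a - min η (gap)
        obtain ⟨s', hs', hs''⟩ := exists_lt_of_lt_csSup hUne
          (show a - min η ((b + (a - b - W)) - s) < sSup U by
            rw [← ha]
            have : 0 < min η ((b + (a - b - W)) - s) := lt_min hηpos (by linarith)
            linarith)
        have h1 : a - η < s' := by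
          have := min_le_left η ((b + (a - b - W)) - s); linarith
        have h2 : a - ((b + (a - b - W)) - s) < s' := by
          have := min_le_right η ((b + (a - b - W)) - s); linarith
        have := h c i (Ne.symm hic) s' (hhigh s' hs' h1) s hs
        linarith
      · by_contra hcon
        push Not at hcon
        obtain ⟨t', ht', ht''⟩ := exists_lt_of_csInf_lt hUne
          (show sInf U < b + min η (s - (b + W)) by
            rw [← hb]
            have : 0 < min η (s - (b + W)) := lt_min hηpos (by linarith)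
            linarith)
        have h1 : t' < b + η := by
          have := min_le_left η (s - (b + W)); linarith
        have h2 : t' < b + (s - (b + W)) := by
          have := min_le_right η (s - (b + W)); linarith
        have := h i c hic s hs t' (hlow t' ht' h1)
        linarith

/-- The plane. -/
abbrev E := EuclideanSpace ℝ (Fin 2)

/-- determinant of two plane vectors -/
noncomputable def det2 (u v : E) : ℝ := u 0 * v 1 - u 1 * v 0

lemma ext2 {u v : E} (h0 : u 0 = v 0) (h1 : u 1 = v 1) : u = v := by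
  ext i
  fin_cases i
  · exact h0
  · exact h1

/-- Coordinates adapted to a compact set: two functionals with dual basis, chords `l r` and `b t`
of maximal extent. -/
lemma adapted (K : Set E) (hK : IsCompact K) (hne : K.Nonempty) :
    ∃ (f g : E →ₗ[ℝ] ℝ) (e1 e2 : E) (W V : ℝ), (∀ z, z = f z • e1 + g z • e2) ∧
      0 ≤ W ∧ 0 ≤ V ∧ f e1 = 1 ∧ f e2 = 0 ∧ g e1 = 0 ∧ g e2 = 1 ∧
      (∀ x ∈ K, ∀ y ∈ K, f (x - y) ≤ W ∧ g (x - y) ≤ V) ∧
      ∃ l ∈ K, ∃ r ∈ K, ∃ b ∈ K, ∃ t ∈ K, f r = f l + W ∧ g r = g l ∧ g t = g b + V ∧ f t = f b := by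
  classical
  -- linear functionals det2 (·, w) and det2 (w, ·)
  let D : E → (E →ₗ[ℝ] ℝ) := fun w =>
    { toFun := fun z => det2 w z
      map_add' := by intro x y; simp [det2]; ring
      map_smul' := by intro c x; simp [det2]; ring }
  have hDapp : ∀ w z, D w z = det2 w z := fun _ _ => rfl
  by_cases hdeg : ∃ v : E, v ≠ 0 ∧ ∀ x ∈ K, ∀ y ∈ K, det2 v (x - y) = 0
  · obtain ⟨v, hv, hv2⟩ := hdeg
    set N : ℝ := v 0 ^ 2 + v 1 ^ 2 with hN
    have hNpos : 0 < N := by
      rcases eq_or_ne (v 0) 0 with h0 | h0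
      · rcases eq_or_ne (v 1) 0 with h1 | h1
        · exact absurd (ext2 (by simpa using h0) (by simpa using h1)) hv
        · have := sq_pos_of_pos (abs_pos.2 h1)
          rw [sq_abs] at this
          nlinarith [sq_nonneg (v 0)]
      · have := sq_pos_of_pos (abs_pos.2 h0)
        rw [sq_abs] at this
        nlinarith [sq_nonneg (v 1)]
    -- J v
    let w : E := !₂[- v 1, v 0]
    have hw0 : w 0 = - v 1 := by simp [w]
    have hw1 : w 1 = v 0 := by simp [w]
    let f : E →ₗ[ℝ] ℝ := (-(1 / N)) • D w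
    let g : E →ₗ[ℝ] ℝ := (1 / N) • D v
    have hf : ∀ z, f z = (v 0 * z 0 + v 1 * z 1) / N := by
      intro z
      simp only [f, LinearMap.smul_apply, hDapp, det2, hw0, hw1, smul_eq_mul]
      field_simp
      ring
    have hg : ∀ z, g z = (v 0 * z 1 - v 1 * z 0) / N := by
      intro z
      simp only [g, LinearMap.smul_apply, hDapp, det2, smul_eq_mul]
      field_simp
    have hgK : ∀ x ∈ K, ∀ y ∈ K, g (x - y) = 0 := by
      intro x hx y hy
      have := hv2 x hx y hy
      simp only [g, LinearMap.smul_apply, hDapp, this, smul_zero]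
    have hfc : Continuous (fun z : E => f z) := f.continuous_of_finiteDimensional
    obtain ⟨l, hl, hlmin⟩ := hK.exists_isMinOn hne hfc.continuousOn
    obtain ⟨r, hr, hrmax⟩ := hK.exists_isMaxOn hne hfc.continuousOn
    refine ⟨f, g, v, w, f r - f l, 0, ?_, ?_, le_rfl, ?_, ?_, ?_, ?_, ?_, ?_⟩
    · intro z
      apply ext2
      · simp only [PiLp.add_apply, PiLp.smul_apply, smul_eq_mul, hf, hg, hw0]
        field_simp
        rw [hN]; ring
      · simp only [PiLp.add_apply, PiLp.smul_apply, smul_eq_mul, hf, hg, hw1]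
        field_simp
        rw [hN]; ring
    · have := hlmin hr
      simp only [Set.mem_ofPred_eq] at this
      linarith
    · rw [hf, div_eq_one_iff_eq hNpos.ne', hN]; ring
    · rw [hf, hw0, hw1]; simp; left; ring
    · rw [hg]; simp; left; ring
    · rw [hg, hw0, hw1, div_eq_one_iff_eq hNpos.ne', hN]; ring
    · intro x hx y hy
      refine ⟨?_, (hgK x hx y hy).le⟩
      have h1 := hrmax hx
      have h2 := hlmin hy
      simp only [Set.mem_ofPred_eq] at h1 h2
      rw [map_sub]; linarith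
    · refine ⟨l, hl, r, hr, l, hl, l, hl, by ring, ?_, by ring, rfl⟩
      have := hgK r hr l hl
      rw [map_sub] at this
      linarith
  · push Not at hdeg
    -- maximise det2 over K^4
    have hcont : Continuous (fun q : (E × E) × (E × E) => det2 (q.1.1 - q.1.2) (q.2.1 - q.2.2)) := by
      unfold det2
      fun_prop
    obtain ⟨q, hq, hqmax⟩ := ((hK.prod hK).prod (hK.prod hK)).exists_isMaxOn
      ((hne.prod hne).prod (hne.prod hne)) hcont.continuousOn
    obtain ⟨⟨r, l⟩, ⟨t, b⟩⟩ := q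
    obtain ⟨⟨hr, hl⟩, ⟨ht, hb⟩⟩ := hq
    simp only at hr hl ht hb
    have hmax : ∀ x ∈ K, ∀ y ∈ K, ∀ x' ∈ K, ∀ y' ∈ K,
        det2 (x - y) (x' - y') ≤ det2 (r - l) (t - b) := by
      intro x hx y hy x' hx' y' hy'
      exact hqmax (show ((x, y), (x', y')) ∈ (K ×ˢ K) ×ˢ (K ×ˢ K) from ⟨⟨hx, hy⟩, ⟨hx', hy'⟩⟩)
    set Δ := det2 (r - l) (t - b) with hΔ
    have hΔpos : 0 < Δ := by
      -- some nonzero difference
      obtain ⟨x, hx, y, hy, hxy⟩ := hdeg (!₂[1, 0]) (by
        intro h0
        have := congrArg (fun z : E => z 0) h0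
        simp at this)
      have hne' : x - y ≠ 0 := by
        intro h0
        rw [h0] at hxy
        simp [det2] at hxy
      obtain ⟨x', hx', y', hy', hxy'⟩ := hdeg (x - y) hne'
      rcases lt_or_gt_of_ne hxy' with hlt | hgt
      · have := hmax x hx y hy y' hy' x' hx'
        have h2 : det2 (x - y) (y' - x') = - det2 (x - y) (x' - y') := by
          simp [det2]; ring
        linarith
      · have := hmax x hx y hy x' hx' y' hy'
        linarith
    let f : E →ₗ[ℝ] ℝ := (-(1 / Δ)) • D (t - b)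
    let g : E →ₗ[ℝ] ℝ := (1 / Δ) • D (r - l)
    have hf : ∀ z, f z = det2 z (t - b) / Δ := by
      intro z
      simp only [f, LinearMap.smul_apply, hDapp, det2, smul_eq_mul]
      field_simp
      ring
    have hg : ∀ z, g z = det2 (r - l) z / Δ := by
      intro z
      simp only [g, LinearMap.smul_apply, hDapp, smul_eq_mul]
      field_simp
    have hff : f (r - l) = 1 := by rw [hf, ← hΔ, div_self hΔpos.ne']
    have hfg : f (t - b) = 0 := by
      rw [hf]; simp [det2]; left; ring
    have hgf : g (r - l) = 0 := by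
      rw [hg]; simp [det2]; left; ring
    have hgg : g (t - b) = 1 := by rw [hg, ← hΔ, div_self hΔpos.ne']
    refine ⟨f, g, r - l, t - b, 1, 1, ?_, zero_le_one, zero_le_one, hff, hfg, hgf, hgg, ?_, ?_⟩
    · intro z
      have hΔ' : (r - l) 0 * (t - b) 1 - (r - l) 1 * (t - b) 0 = Δ := rfl
      apply ext2
      · simp only [PiLp.add_apply, PiLp.smul_apply, smul_eq_mul, hf, hg]
        rw [← mul_right_inj' hΔpos.ne']
        field_simp
        rw [← hΔ']
        simp only [det2]
        ring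
      · simp only [PiLp.add_apply, PiLp.smul_apply, smul_eq_mul, hf, hg]
        rw [← mul_right_inj' hΔpos.ne']
        field_simp
        rw [← hΔ']
        simp only [det2]
        ring
    · intro x hx y hy
      constructor
      · rw [hf, div_le_one hΔpos]; exact hmax x hx y hy t ht b hb
      · rw [hg, div_le_one hΔpos]; exact hmax r hr l hl x hx y hy
    · refine ⟨l, hl, r, hr, b, hb, t, ht, ?_, ?_, ?_, ?_⟩
      · rw [map_sub] at hff; linarith
      · rw [map_sub] at hgf; linarith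
      · rw [map_sub] at hgg; linarith
      · rw [map_sub] at hfg; linarith

/-- a number of an interval `[k, k + A]` is `k + α A` with `0 ≤ α ≤ 1` -/
lemma param {k A s : ℝ} (h1 : k ≤ s) (h2 : s ≤ k + A) : ∃ α, 0 ≤ α ∧ α ≤ 1 ∧ s = k + α * A := by
  rcases eq_or_lt_of_le (show 0 ≤ A by linarith) with hA | hA
  · exact ⟨0, le_rfl, zero_le_one, by rw [zero_mul]; linarith⟩
  · refine ⟨(s - k) / A, div_nonneg (by linarith) hA.le, ?_, ?_⟩
    · rw [div_le_one hA]; linarith
    · field_simp; ring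

/-- `K` contains, in the adapted coordinates, a box of size `(1-θ) W × θ V`. -/
lemma box_subset (K : Set E) (hc : Convex ℝ K) (f g : E →ₗ[ℝ] ℝ) (e1 e2 : E) (W V : ℝ)
    (hz : ∀ z, z = f z • e1 + g z • e2) (l r b t : E) (hl : l ∈ K) (hr : r ∈ K) (hb : b ∈ K)
    (ht : t ∈ K) (h1 : f r = f l + W) (h2 : g r = g l) (h3 : g t = g b + V) (h4 : f t = f b)
    (θ : ℝ) (hθ0 : 0 ≤ θ) (hθ1 : θ ≤ 1) :
    ∃ k1 k2 : ℝ, ∀ z : E, k1 ≤ f z → f z ≤ k1 + (1 - θ) * W → k2 ≤ g z → g z ≤ k2 + θ * V →
      z ∈ K := by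
  refine ⟨(1 - θ) * f l + θ * f b, (1 - θ) * g l + θ * g b, ?_⟩
  intro z hz1 hz2 hz3 hz4
  obtain ⟨α, hα0, hα1, hα⟩ := param hz1 hz2
  obtain ⟨β, hβ0, hβ1, hβ⟩ := param hz3 hz4
  have hp : (1 - α) • l + α • r ∈ K := hc hl hr (by linarith) hα0 (by ring)
  have hq : (1 - β) • b + β • t ∈ K := hc hb ht (by linarith) hβ0 (by ring)
  have hm : (1 - θ) • ((1 - α) • l + α • r) + θ • ((1 - β) • b + β • t) ∈ K :=
    hc hp hq (by linarith) hθ0 (by ring)
  have hfe : f ((1 - θ) • ((1 - α) • l + α • r) + θ • ((1 - β) • b + β • t)) = f z := by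
    simp only [map_add, map_smul, smul_eq_mul, h1, h4]
    rw [hα]; ring
  have hge : g ((1 - θ) • ((1 - α) • l + α • r) + θ • ((1 - β) • b + β • t)) = g z := by
    simp only [map_add, map_smul, smul_eq_mul, h2, h3]
    rw [hβ]; ring
  have : z = (1 - θ) • ((1 - α) • l + α • r) + θ • ((1 - β) • b + β • t) := by
    rw [hz z, hz ((1 - θ) • ((1 - α) • l + α • r) + θ • ((1 - β) • b + β • t)), hfe, hge]
  rw [this]; exact hm

/-- The piercing number of all families but one is at most `4`. -/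
theorem result :
    ∀ (n : ℕ), 2 ≤ n →
    ∀ (K : Set (EuclideanSpace ℝ (Fin 2))), IsCompact K → Convex ℝ K →
    ∀ (F : Fin n → Set (EuclideanSpace ℝ (Fin 2))),
      (∀ i, (F i).Nonempty) →
      (∀ i j : Fin n, i ≠ j → ∀ a ∈ F i, ∀ b ∈ F j, ((a +ᵥ K) ∩ (b +ᵥ K)).Nonempty) →
      ∃ m : Fin n, ∃ P : Finset (EuclideanSpace ℝ (Fin 2)), P.card ≤ 4 ∧
        ∀ i : Fin n, i ≠ m → ∀ a ∈ F i, ∃ p ∈ P, p ∈ a +ᵥ K := by
  classical
  intro n hn K hK hc F hF hint
  have hmemv : ∀ (p a : E), p ∈ a +ᵥ K ↔ p - a ∈ K := by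
    intro p a
    rw [Set.mem_vadd_set_iff_neg_vadd_mem, vadd_eq_add]
    rw [show -a + p = p - a by abel]
  have hKne : K.Nonempty := by
    obtain ⟨a, ha⟩ := hF ⟨0, by omega⟩
    obtain ⟨b, hb⟩ := hF ⟨1, by omega⟩
    obtain ⟨x, hx, -⟩ := hint ⟨0, by omega⟩ ⟨1, by omega⟩ (by simp) a ha b hb
    rw [hmemv] at hx
    exact ⟨_, hx⟩
  obtain ⟨f, g, e1, e2, W, V, hz, hW, hV, hfe1, hfe2, hge1, hge2, hdiff, l, hl, r, hr, b, hb, t,
    ht, h1, h2, h3, h4⟩ := adapted K hK hKne
  -- differences of translation vectors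
  have hd : ∀ i j : Fin n, i ≠ j → ∀ a ∈ F i, ∀ c ∈ F j, f a - f c ≤ W ∧ g a - g c ≤ V := by
    intro i j hij a ha c hc'
    obtain ⟨x, hx1, hx2⟩ := hint i j hij a ha c hc'
    rw [hmemv] at hx1 hx2
    have := hdiff (x - c) hx2 (x - a) hx1
    rw [show x - c - (x - a) = a - c by abel, map_sub, map_sub] at this
    exact this
  obtain ⟨x, ε, c, hε, hx1, hx2⟩ := one_dim hn (fun i => f '' (F i)) (fun i => (hF i).image _) W (by
    rintro i j hij _ ⟨a, ha, rfl⟩ _ ⟨c, hc', rfl⟩
    exact (hd i j hij a ha c hc').1)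
  obtain ⟨y, δ, d, hδ, hy1, hy2⟩ := one_dim hn (fun i => g '' (F i)) (fun i => (hF i).image _) V (by
    rintro i j hij _ ⟨a, ha, rfl⟩ _ ⟨c, hc', rfl⟩
    exact (hd i j hij a ha c hc').2)
  -- ε ≤ W and δ ≤ V
  have hεW : ε ≤ W := by
    have : ∃ i : Fin n, i ≠ c := by
      by_cases hi : (⟨0, by omega⟩ : Fin n) = c
      · refine ⟨⟨1, by omega⟩, ?_⟩
        rw [← hi]; simp
      · exact ⟨_, hi⟩
    obtain ⟨i, hi⟩ := this
    obtain ⟨a, ha⟩ := hF i
    have := hx2 i hi (f a) ⟨a, ha, rfl⟩
    linarith [this.1, this.2]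
  have hδV : δ ≤ V := by
    have : ∃ i : Fin n, i ≠ d := by
      by_cases hi : (⟨0, by omega⟩ : Fin n) = d
      · refine ⟨⟨1, by omega⟩, ?_⟩
        rw [← hi]; simp
      · exact ⟨_, hi⟩
    obtain ⟨i, hi⟩ := this
    obtain ⟨a, ha⟩ := hF i
    have := hy2 i hi (g a) ⟨a, ha, rfl⟩
    linarith [this.1, this.2]
  -- a good index, a good θ and a box containing all other families
  obtain ⟨m, θ, X, Y, hθ0, hθ1, hbox⟩ : ∃ (m : Fin n) (θ X Y : ℝ), 0 ≤ θ ∧ θ ≤ 1 ∧
      ∀ i, i ≠ m → ∀ a ∈ F i, X ≤ f a ∧ f a ≤ X + 2 * ((1 - θ) * W) ∧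
        Y ≤ g a ∧ g a ≤ Y + 2 * (θ * V) := by
    by_cases hcase : δ * W ≤ ε * V
    · -- drop colour c
      rcases eq_or_lt_of_le hV with hV0 | hV0
      · refine ⟨c, 0, x + ε, y, le_rfl, zero_le_one, ?_⟩
        intro i hi a ha
        have hA := hx2 i hi (f a) ⟨a, ha, rfl⟩
        have hB := hy1 i (g a) ⟨a, ha, rfl⟩
        have : δ = 0 := by linarith
        refine ⟨hA.1, by linarith [hA.2], hB.1, by linarith [hB.2]⟩
      · refine ⟨c, (V + δ) / (2 * V), x + ε, y, by positivity, ?_, ?_⟩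
        · rw [div_le_one (by positivity)]; linarith
        · intro i hi a ha
          have hA := hx2 i hi (f a) ⟨a, ha, rfl⟩
          have hB := hy1 i (g a) ⟨a, ha, rfl⟩
          have e1' : 2 * ((V + δ) / (2 * V) * V) = V + δ := by field_simp
          have e2' : 2 * ((1 - (V + δ) / (2 * V)) * W) = W - δ * W / V := by field_simp; ring
          have e3 : δ * W / V ≤ ε := by rw [div_le_iff₀ hV0]; linarith
          rw [e1', e2']
          refine ⟨hA.1, by linarith [hA.2], hB.1, by linarith [hB.2]⟩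
    · push Not at hcase
      -- drop colour d ; here W > 0
      have hW0 : 0 < W := by
        rcases eq_or_lt_of_le hW with hW0 | hW0
        · exfalso
          rw [← hW0, mul_zero] at hcase
          nlinarith [mul_nonneg hε hV]
        · exact hW0
      refine ⟨d, 1 - (W + ε) / (2 * W), x, y + δ, ?_, ?_, ?_⟩
      · have : (W + ε) / (2 * W) ≤ 1 := by rw [div_le_one (by positivity)]; linarith
        linarith
      · have : 0 ≤ (W + ε) / (2 * W) := by positivity
        linarith
      · intro i hi a ha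
        have hA := hx1 i (f a) ⟨a, ha, rfl⟩
        have hB := hy2 i hi (g a) ⟨a, ha, rfl⟩
        have e1' : 2 * ((1 - (1 - (W + ε) / (2 * W))) * W) = W + ε := by field_simp; ring
        have e2' : 2 * ((1 - (W + ε) / (2 * W)) * V) = V - ε * V / W := by field_simp; ring
        have e3 : ε * V / W ≤ δ := by rw [div_le_iff₀ hW0]; linarith
        rw [e1', e2']
        refine ⟨hA.1, by linarith [hA.2], hB.1, by linarith [hB.2]⟩
  obtain ⟨k1, k2, hk⟩ := box_subset K hc f g e1 e2 W V hz l r b t hl hr hb ht h1 h2 h3 h4 θ hθ0 hθ1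
  set A := (1 - θ) * W with hA
  set B := θ * V with hB
  let p : ℕ → ℕ → E := fun i j => (k1 + X + (i + 1) * A) • e1 + (k2 + Y + (j + 1) * B) • e2
  have hfp : ∀ i j, f (p i j) = k1 + X + (i + 1) * A := by
    intro i j
    simp only [p, map_add, map_smul, smul_eq_mul, hfe1, hfe2]
    ring
  have hgp : ∀ i j, g (p i j) = k2 + Y + (j + 1) * B := by
    intro i j
    simp only [p, map_add, map_smul, smul_eq_mul, hge1, hge2]
    ring
  refine ⟨m, {p 0 0, p 0 1, p 1 0, p 1 1}, Finset.card_le_four, ?_⟩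
  intro i hi a ha
  obtain ⟨ha1, ha2, ha3, ha4⟩ := hbox i hi a ha
  have hA0 : 0 ≤ A := mul_nonneg (by linarith) hW
  have hB0 : 0 ≤ B := mul_nonneg hθ0 hV
  have key : ∀ i' j' : ℕ, (X + i' * A ≤ f a ∧ f a ≤ X + (i' + 1) * A) →
      (Y + j' * B ≤ g a ∧ g a ≤ Y + (j' + 1) * B) → p i' j' ∈ a +ᵥ K := by
    intro i' j' hh1 hh2
    rw [hmemv]
    apply hk
    · rw [map_sub, hfp]; linarith [hh1.2]
    · rw [map_sub, hfp]; linarith [hh1.1]
    · rw [map_sub, hgp]; linarith [hh2.2]
    · rw [map_sub, hgp]; linarith [hh2.1]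
  rcases le_total (f a) (X + A) with hfa | hfa
  · rcases le_total (g a) (Y + B) with hga | hga
    · exact ⟨p 0 0, by simp, key 0 0 (by constructor <;> push_cast <;> linarith)
        (by constructor <;> push_cast <;> linarith)⟩
    · exact ⟨p 0 1, by simp, key 0 1 (by constructor <;> push_cast <;> linarith)
        (by constructor <;> push_cast <;> linarith)⟩
  · rcases le_total (g a) (Y + B) with hga | hga
    · exact ⟨p 1 0, by simp, key 1 0 (by constructor <;> push_cast <;> linarith)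
        (by constructor <;> push_cast <;> linarith)⟩
    · exact ⟨p 1 1, by simp, key 1 1 (by constructor <;> push_cast <;> linarith)
        (by constructor <;> push_cast <;> linarith)⟩

end Pool.Agent.Results.MP_71837e_co.FourPoints
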