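import Pool.Agent.H83.Sym.Main

set_option autoImplicit false
open scoped Pointwise

namespace Pool.Agent.Results.MP_71837e_co.SymmetricAllButOne

/-- The problem for centrally symmetric `K`: if `K` is centrally symmetric, then for every number `n ≥ 2` of
families all of them except one are pierced by three points. -/
theorem result :
    ∀ (n : ℕ), 2 ≤ n →
    ∀ (K : Set (EuclideanSpace ℝ (Fin 2))), IsCompact K → Convex ℝ K →
      (∃ c : EuclideanSpace ℝ (Fin 2), ∀ x ∈ K, c - x ∈ K) →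
    ∀ (F : Fin n → Set (EuclideanSpace ℝ (Fin 2))),
      (∀ i, (F i).Nonempty) →
      (∀ i j : Fin n, i ≠ j → ∀ a ∈ F i, ∀ b ∈ F j, ((a +ᵥ K) ∩ (b +ᵥ K)).Nonempty) →
      ∃ m : Fin n, ∃ P : Finset (EuclideanSpace ℝ (Fin 2)), P.card ≤ 3 ∧
        ∀ i : Fin n, i ≠ m → ∀ a ∈ F i, ∃ p ∈ P, p ∈ a +ᵥ K :=
  fun _ hn K hK hc hs F hF hint => Pool.Agent.H83.Sym.symmetric hn K hK hc hs F hF hint

end Pool.Agent.Results.MP_71837e_co.SymmetricAllButOne
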