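import Mathlib

/-!
# Colourful piercing of translates of an intersection of three strips

Let `K` be an intersection of three strips in the plane, described by functionals `ψ c` with sum zero
and widths `w c`. For each `c` all the families but one have `ψ c`-range in an interval of length
`w c - e c`, and all of them in an interval of length `w c + e c` with the same centre. The family which
is wide in the direction `c` with the largest ratio `ε = e c / w c` is removed. The translation vectors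
of the others lie in a hexagon with widths `(1 - ε) w 0`, `(1 + ε) w 1`, `(1 + ε) w 2`, and the lemma
`cov` covers such a hexagon by three translates of `-K`.
-/

set_option autoImplicit false
open scoped Pointwise

namespace Pool.Agent.Results.MP_71837e_co.ThreeStrips

/-- One functional: the total range of nonempty families of reals whose members from different
families differ by at most `W`. Apart from one family `c`, everything lies in a shorter interval. -/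
lemma one_dim {n : ℕ} (hn : 2 ≤ n) (S : Fin n → Set ℝ) (hS : ∀ i, (S i).Nonempty) (W : ℝ)
    (h : ∀ i j : Fin n, i ≠ j → ∀ s ∈ S i, ∀ t ∈ S j, s - t ≤ W) :
    ∃ x ε : ℝ, ∃ c : Fin n, 0 ≤ ε ∧ (∀ i, ∀ s ∈ S i, x ≤ s ∧ s ≤ x + W + ε) ∧
      (∀ i, i ≠ c → ∀ s ∈ S i, x + ε ≤ s ∧ s ≤ x + W) := by
  classical
  have hother : ∀ i : Fin n, ∃ j : Fin n, i ≠ j := by
    intro i
    by_cases hi : i = ⟨0, by omega⟩
    · refine ⟨⟨1, by omega⟩, ?_⟩
      rw [hi]; intro h0; simp at h0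
    · exact ⟨⟨0, by omega⟩, hi⟩
  set U : Set ℝ := ⋃ i, S i with hU
  have hUne : U.Nonempty := by
    obtain ⟨s, hs⟩ := hS ⟨0, by omega⟩
    exact ⟨s, Set.mem_iUnion.2 ⟨_, hs⟩⟩
  have hbA : BddAbove U := by
    have key := ((Set.finite_univ (α := Fin n)).bddAbove_biUnion (S := S)).2
    have hUe : U = ⋃ i ∈ (Set.univ : Set (Fin n)), S i := by simp [hU]
    rw [hUe]
    refine key ?_
    rintro i -
    obtain ⟨j, hij⟩ := hother i
    obtain ⟨t, ht⟩ := hS j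
    refine ⟨t + W, fun s hs => ?_⟩
    have := h i j hij s hs t ht
    linarith
  have hbB : BddBelow U := by
    have key := ((Set.finite_univ (α := Fin n)).bddBelow_biUnion (S := S)).2
    have hUe : U = ⋃ i ∈ (Set.univ : Set (Fin n)), S i := by simp [hU]
    rw [hUe]
    refine key ?_
    rintro i -
    obtain ⟨j, hij⟩ := hother i
    obtain ⟨t, ht⟩ := hS j
    refine ⟨t - W, fun s hs => ?_⟩
    have := h j i hij.symm t ht s hs
    linarith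
  set a := sSup U with ha
  set b := sInf U with hb
  have hmem : ∀ i, ∀ s ∈ S i, b ≤ s ∧ s ≤ a := fun i s hs =>
    ⟨csInf_le hbB (Set.mem_iUnion.2 ⟨i, hs⟩), le_csSup hbA (Set.mem_iUnion.2 ⟨i, hs⟩)⟩
  by_cases hr : a - b ≤ W
  · refine ⟨b, 0, ⟨0, by omega⟩, le_rfl, ?_, ?_⟩
    · intro i s hs
      have := hmem i s hs
      constructor <;> linarith [this.1, this.2]
    · intro i _ s hs
      have := hmem i s hs
      constructor <;> linarith [this.1, this.2]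
  · push Not at hr
    set η := (a - b - W) / 2 with hη
    have hηpos : 0 < η := by rw [hη]; linarith
    obtain ⟨s0, hs0, hs0'⟩ := exists_lt_of_lt_csSup hUne (show a - η < sSup U by rw [← ha]; linarith)
    obtain ⟨c, hc⟩ := Set.mem_iUnion.1 hs0
    -- low points belong to `c`
    have hlow : ∀ t ∈ U, t < b + η → t ∈ S c := by
      intro t ht htb
      obtain ⟨j, hj⟩ := Set.mem_iUnion.1 ht
      by_cases hjc : c = j
      · rw [hjc]; exact hj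
      · exfalso
        have := h c j hjc s0 hc t hj
        linarith
    obtain ⟨t0, ht0, ht0'⟩ := exists_lt_of_csInf_lt hUne (show sInf U < b + η by rw [← hb]; linarith)
    have hhigh : ∀ s ∈ U, a - η < s → s ∈ S c := by
      intro s hs hsa
      obtain ⟨j, hj⟩ := Set.mem_iUnion.1 hs
      by_cases hjc : j = c
      · rw [← hjc]; exact hj
      · exfalso
        have := h j c hjc s hj t0 (hlow t0 ht0 ht0')
        linarith
    refine ⟨b, a - b - W, c, by linarith, ?_, ?_⟩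
    · intro i s hs
      have := hmem i s hs
      constructor <;> linarith [this.1, this.2]
    · intro i hic s hs
      constructor
      · by_contra hcon
        push Not at hcon
        -- find s' in U with s' > a - min η (gap)
        obtain ⟨s', hs', hs''⟩ := exists_lt_of_lt_csSup hUne
          (show a - min η ((b + (a - b - W)) - s) < sSup U by
            rw [← ha]
            have : 0 < min η ((b + (a - b - W)) - s) := lt_min hηpos (by linarith)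
            linarith)
        have h1 : a - η < s' := by
          have := min_le_left η ((b + (a - b - W)) - s); linarith
        have h2 : a - ((b + (a - b - W)) - s) < s' := by
          have := min_le_right η ((b + (a - b - W)) - s); linarith
        have := h c i (Ne.symm hic) s' (hhigh s' hs' h1) s hs
        linarith
      · by_contra hcon
        push Not at hcon
        obtain ⟨t', ht', ht''⟩ := exists_lt_of_csInf_lt hUne
          (show sInf U < b + min η (s - (b + W)) by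
            rw [← hb]
            have : 0 < min η (s - (b + W)) := lt_min hηpos (by linarith)
            linarith)
        have h1 : t' < b + η := by
          have := min_le_left η (s - (b + W)); linarith
        have h2 : t' < b + (s - (b + W)) := by
          have := min_le_right η (s - (b + W)); linarith
        have := h i c hic s hs t' (hlow t' ht' h1)
        linarith



/-- Admissible data of a set cut out by three strips of widths `a b c` (`s` is the sum level). -/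
def Adm (a b c s : ℝ) : Prop :=
  0 ≤ a ∧ 0 ≤ b ∧ 0 ≤ c ∧ a ≤ s ∧ b ≤ s ∧ c ≤ s ∧ s ≤ b + c ∧ s ≤ a + c ∧ s ≤ a + b

lemma exY (a b c d : ℝ) : ∃ Y : ℝ, a ≤ Y ∧ b ≤ Y ∧ 0 ≤ Y ∧ (c ≤ Y ∨ d ≤ Y) ∧
    (Y = a ∨ Y = b ∨ Y = 0 ∨ (Y ≤ c ∧ Y ≤ d)) := by
  refine ⟨max (max a b) (max 0 (min c d)), ?_, ?_, ?_, ?_, ?_⟩
  · exact le_trans (le_max_left _ _) (le_max_left _ _)
  · exact le_trans (le_max_right _ _) (le_max_left _ _)
  · exact le_trans (le_max_left _ _) (le_max_right _ _)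
  · rcases le_total c d with h | h
    · left
      rw [min_eq_left h]
      exact le_trans (le_max_right _ _) (le_max_right _ _)
    · right
      rw [min_eq_right h]
      exact le_trans (le_max_right _ _) (le_max_right _ _)
  · rcases max_choice (max a b) (max 0 (min c d)) with h | h <;> rw [h]
    · rcases max_choice a b with h | h <;> rw [h]
      · exact Or.inl rfl
      · exact Or.inr (Or.inl rfl)
    · rcases max_choice 0 (min c d) with h | h <;> rw [h]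
      · exact Or.inr (Or.inr (Or.inl rfl))
      · exact Or.inr (Or.inr (Or.inr ⟨min_le_left _ _, min_le_right _ _⟩))

section
variable {w1 w2 w3 s e1 e2 e3 f σ l1 l2 l3 Y Z : ℝ}

lemma c64 (hw : Adm w1 w2 w3 s) (he : Adm e1 e2 e3 f) (hd : Adm (w1 - e1) (w2 - e2) (w3 - e3) (s - f))
    (hσ : σ ≤ w1 + w2 + w3 - s + (f - e1)) (h0 : 0 ≤ σ)
    (a1 : l1 ≤ w1 - e1) (a2 : l2 ≤ w2 + e2) (a3 : l3 ≤ w3 + e3) (b1 : l1 ≤ σ) (b2 : l2 ≤ σ) (b3 : l3 ≤ σ)
    (hY : Y = l2 - w2 ∨ Y = σ - w3 ∨ Y = 0 ∨ (Y ≤ (σ - s + l2) / 2 ∧ Y ≤ l1 + l2 - s))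
    (hZ : Z = l3 - w3 ∨ Z = σ - w2 ∨ Z = 0 ∨ (Z ≤ (σ - s + l3) / 2 ∧ Z ≤ l1 + l3 - s)) :
    l1 + Y + Z ≤ s + σ := by
  obtain ⟨p1, p2, p3, p4, p5, p6, p7, p8, p9⟩ := hw
  obtain ⟨q1, q2, q3, q4, q5, q6, q7, q8, q9⟩ := he
  obtain ⟨r1, r2, r3, r4, r5, r6, r7, r8, r9⟩ := hd
  rcases hY with h | h | h | ⟨h, h'⟩ <;> rcases hZ with k | k | k | ⟨k, k'⟩ <;> linarith

lemma c16 (hw : Adm w1 w2 w3 s) (he : Adm e1 e2 e3 f) (hd : Adm (w1 - e1) (w2 - e2) (w3 - e3) (s - f))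
    (hσ : σ ≤ w1 + w2 + w3 - s + (f - e1)) (h0 : 0 ≤ σ)
    (a1 : l1 ≤ w1 - e1) (a2 : l2 ≤ w2 + e2) (a3 : l3 ≤ w3 + e3) (b1 : l1 ≤ σ) (b2 : l2 ≤ σ) (b3 : l3 ≤ σ)
    (hY : Y = l2 - w2 ∨ Y = σ - w3 ∨ Y = 0 ∨ (Y ≤ (σ - s + l2) / 2 ∧ Y ≤ l1 + l2 - s))
    (hZ : Z = l3 - w3 ∨ Z = σ - w2 ∨ Z = 0 ∨ (Z ≤ (σ - s + l3) / 2 ∧ Z ≤ l1 + l3 - s)) :
    Y ≤ w2 ∨ Y ≤ w2 + (σ - l1 - Z) := by
  by_contra hcon
  rw [not_or, not_le, not_le] at hcon
  obtain ⟨x1, x2⟩ := hcon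
  obtain ⟨p1, p2, p3, p4, p5, p6, p7, p8, p9⟩ := hw
  obtain ⟨q1, q2, q3, q4, q5, q6, q7, q8, q9⟩ := he
  obtain ⟨r1, r2, r3, r4, r5, r6, r7, r8, r9⟩ := hd
  rcases hY with h | h | h | ⟨h, h'⟩ <;> rcases hZ with k | k | k | ⟨k, k'⟩ <;> linarith

lemma c128 (hw : Adm w1 w2 w3 s) (he : Adm e1 e2 e3 f) (hd : Adm (w1 - e1) (w2 - e2) (w3 - e3) (s - f))
    (hc : Adm (w1 - 2 * e1) (w2 - 2 * e2) (w3 - 2 * e3) (s - 2 * f) ∨
      Adm (2 * e1 - w1) (2 * e2 - w2) (2 * e3 - w3) (2 * f - s))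
    (hσ : σ ≤ w1 + w2 + w3 - s + (f - e1)) (h0 : 0 ≤ σ)
    (a1 : l1 ≤ w1 - e1) (a2 : l2 ≤ w2 + e2) (a3 : l3 ≤ w3 + e3) (b1 : l1 ≤ σ) (b2 : l2 ≤ σ) (b3 : l3 ≤ σ)
    (hY : Y = l2 - w2 ∨ Y = σ - w3 ∨ Y = 0 ∨ (Y ≤ (σ - s + l2) / 2 ∧ Y ≤ l1 + l2 - s))
    (hZ : Z = l3 - w3 ∨ Z = σ - w2 ∨ Z = 0 ∨ (Z ≤ (σ - s + l3) / 2 ∧ Z ≤ l1 + l3 - s))
    {A B C : ℝ} (hA : 0 ≤ A) (hA' : σ - Y - Z ≤ A) (hB : 0 ≤ B) (hB' : σ - l1 - Z ≤ B)
    (hC : 0 ≤ C) (hC' : σ - l1 - Y ≤ C) :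
    σ - (w1 + w2 + w3 - s) ≤ A + B + C := by
  obtain ⟨p1, p2, p3, p4, p5, p6, p7, p8, p9⟩ := hw
  obtain ⟨q1, q2, q3, q4, q5, q6, q7, q8, q9⟩ := he
  obtain ⟨r1, r2, r3, r4, r5, r6, r7, r8, r9⟩ := hd
  rcases hc with ⟨t1, t2, t3, t4, t5, t6, t7, t8, t9⟩ | ⟨t1, t2, t3, t4, t5, t6, t7, t8, t9⟩ <;>
  rcases hY with h | h | h | ⟨h, h'⟩ <;> rcases hZ with k | k | k | ⟨k, k'⟩ <;> linarith
end

/-- A point of the plane `sum = T` with prescribed intervals for the coordinates. -/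
lemma pt {a1 a2 a3 b1 b2 b3 w1 w2 w3 T : ℝ} (h1 : b1 - a1 ≤ w1) (h2 : b2 - a2 ≤ w2)
    (h3 : b3 - a3 ≤ w3) (hb : b1 + b2 + b3 ≤ T) (ha : T ≤ a1 + w1 + (a2 + w2) + (a3 + w3)) :
    ∃ P : Fin 3 → ℝ, P 0 + P 1 + P 2 = T ∧ (P 0 - w1 ≤ a1 ∧ b1 ≤ P 0) ∧ (P 1 - w2 ≤ a2 ∧ b2 ≤ P 1) ∧
      (P 2 - w3 ≤ a3 ∧ b3 ≤ P 2) := by
  rcases le_total (a1 + w1) (T - b2 - b3) with h | h
  · rcases le_total (a2 + w2) (T - (a1 + w1) - b3) with k | k
    · exact ⟨![a1 + w1, a2 + w2, T - (a1 + w1) - (a2 + w2)],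
        show a1 + w1 + (a2 + w2) + (T - (a1 + w1) - (a2 + w2)) = T by ring,
        ⟨show a1 + w1 - w1 ≤ a1 by linarith, show b1 ≤ a1 + w1 by linarith⟩,
        ⟨show a2 + w2 - w2 ≤ a2 by linarith, show b2 ≤ a2 + w2 by linarith⟩,
        ⟨show T - (a1 + w1) - (a2 + w2) - w3 ≤ a3 by linarith,
          show b3 ≤ T - (a1 + w1) - (a2 + w2) by linarith⟩⟩
    · exact ⟨![a1 + w1, T - (a1 + w1) - b3, b3],
        show a1 + w1 + (T - (a1 + w1) - b3) + b3 = T by ring,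
        ⟨show a1 + w1 - w1 ≤ a1 by linarith, show b1 ≤ a1 + w1 by linarith⟩,
        ⟨show T - (a1 + w1) - b3 - w2 ≤ a2 by linarith,
          show b2 ≤ T - (a1 + w1) - b3 by linarith⟩,
        ⟨show b3 - w3 ≤ a3 by linarith, show b3 ≤ b3 by linarith⟩⟩
  · exact ⟨![T - b2 - b3, b2, b3], show T - b2 - b3 + b2 + b3 = T by ring,
        ⟨show T - b2 - b3 - w1 ≤ a1 by linarith, show b1 ≤ T - b2 - b3 by linarith⟩,
        ⟨show b2 - w2 ≤ a2 by linarith, show b2 ≤ b2 by linarith⟩,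
        ⟨show b3 - w3 ≤ a3 by linarith, show b3 ≤ b3 by linarith⟩⟩

/-- The part `0 ≤ u ≤ l` of the plane `sum = σ` is covered by three translates. -/
def Cov (w1 w2 w3 s l1 l2 l3 σ : ℝ) : Prop :=
  ∃ P : Fin 3 → Fin 3 → ℝ, (∀ i, P i 0 + P i 1 + P i 2 = s + σ) ∧
    ∀ u1 u2 u3 : ℝ, 0 ≤ u1 → u1 ≤ l1 → 0 ≤ u2 → u2 ≤ l2 → 0 ≤ u3 → u3 ≤ l3 → u1 + u2 + u3 = σ →
      ∃ i, (P i 0 - w1 ≤ u1 ∧ u1 ≤ P i 0) ∧ (P i 1 - w2 ≤ u2 ∧ u2 ≤ P i 1) ∧
        (P i 2 - w3 ≤ u3 ∧ u3 ≤ P i 2)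

lemma covU {w1 w2 w3 s e1 e2 e3 f σ : ℝ} (hw : Adm w1 w2 w3 s) (he : Adm e1 e2 e3 f)
    (hd : Adm (w1 - e1) (w2 - e2) (w3 - e3) (s - f))
    (hc : Adm (w1 - 2 * e1) (w2 - 2 * e2) (w3 - 2 * e3) (s - 2 * f) ∨
      Adm (2 * e1 - w1) (2 * e2 - w2) (2 * e3 - w3) (2 * f - s))
    (hσ : σ ≤ w1 + w2 + w3 - s + (f - e1)) :
    Cov w1 w2 w3 s (w1 - e1) (w2 + e2) (w3 + e3) σ := by
  rcases lt_or_ge σ 0 with h0 | h0
  · refine ⟨fun _ => ![s + σ, 0, 0], fun i => by simp, ?_⟩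
    intro u1 u2 u3 h1 _ h2 _ h3 _ h
    exfalso
    linarith
  obtain ⟨l1, hl1⟩ : ∃ l1, l1 = min (w1 - e1) σ := ⟨_, rfl⟩
  obtain ⟨l2, hl2⟩ : ∃ l2, l2 = min (w2 + e2) σ := ⟨_, rfl⟩
  obtain ⟨l3, hl3⟩ : ∃ l3, l3 = min (w3 + e3) σ := ⟨_, rfl⟩
  have a1 : l1 ≤ w1 - e1 := hl1 ▸ min_le_left _ _
  have a2 : l2 ≤ w2 + e2 := hl2 ▸ min_le_left _ _
  have a3 : l3 ≤ w3 + e3 := hl3 ▸ min_le_left _ _
  have b1 : l1 ≤ σ := hl1 ▸ min_le_right _ _
  have b2 : l2 ≤ σ := hl2 ▸ min_le_right _ _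
  have b3 : l3 ≤ σ := hl3 ▸ min_le_right _ _
  obtain ⟨Y, y1, y2, y3, y4, hY⟩ := exY (l2 - w2) (σ - w3) ((σ - s + l2) / 2) (l1 + l2 - s)
  obtain ⟨Z, z1, z2, z3, z4, hZ⟩ := exY (l3 - w3) (σ - w2) ((σ - s + l3) / 2) (l1 + l3 - s)
  have k64 := c64 hw he hd hσ h0 a1 a2 a3 b1 b2 b3 hY hZ
  have k16 := c16 hw he hd hσ h0 a1 a2 a3 b1 b2 b3 hY hZ
  have hw' : Adm w1 w3 w2 s := by
    obtain ⟨p1, p2, p3, p4, p5, p6, p7, p8, p9⟩ := hw
    exact ⟨p1, p3, p2, p4, p6, p5, by linarith, p9, p8⟩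
  have he' : Adm e1 e3 e2 f := by
    obtain ⟨p1, p2, p3, p4, p5, p6, p7, p8, p9⟩ := he
    exact ⟨p1, p3, p2, p4, p6, p5, by linarith, p9, p8⟩
  have hd' : Adm (w1 - e1) (w3 - e3) (w2 - e2) (s - f) := by
    obtain ⟨p1, p2, p3, p4, p5, p6, p7, p8, p9⟩ := hd
    exact ⟨p1, p3, p2, p4, p6, p5, by linarith, p9, p8⟩
  have k32 := c16 hw' he' hd' (by linarith) h0 a1 a3 a2 b1 b3 b2 hZ hY
  have k128 := c128 hw he hd hc hσ h0 a1 a2 a3 b1 b2 b3 hY hZ (A := max 0 (σ - Y - Z))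
    (B := max 0 (σ - l1 - Z)) (C := max 0 (σ - l1 - Y)) (le_max_left _ _) (le_max_right _ _)
    (le_max_left _ _) (le_max_right _ _) (le_max_left _ _) (le_max_right _ _)
  obtain ⟨p1, p2, p3, p4, p5, p6, p7, p8, p9⟩ := hw
  obtain ⟨q1, q2, q3, q4, q5, q6, q7, q8, q9⟩ := he
  have m1 := le_max_left 0 (σ - Y - Z)
  have m2 := le_max_left 0 (σ - l1 - Z)
  have m3 := le_max_left 0 (σ - l1 - Y)
  have m4 := le_max_right 0 (σ - l1 - Z)
  have m5 := le_max_right 0 (σ - l1 - Y)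
  obtain ⟨P, hP0, ⟨hP1, hP1'⟩, ⟨hP2, hP2'⟩, ⟨hP3, hP3'⟩⟩ := pt (a1 := max 0 (σ - Y - Z)) (b1 := l1)
    (a2 := max 0 (σ - l1 - Z)) (b2 := Y) (a3 := max 0 (σ - l1 - Y)) (b3 := Z) (w1 := w1) (w2 := w2)
    (w3 := w3) (T := s + σ) (by linarith) (by rcases k16 with h | h <;> linarith)
    (by rcases k32 with h | h <;> linarith) (by linarith) (by linarith)
  obtain ⟨Q, hQ0, ⟨hQ1, hQ1'⟩, ⟨hQ2, hQ2'⟩, ⟨hQ3, hQ3'⟩⟩ := pt (a1 := 0) (b1 := min l1 (σ - Y))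
    (a2 := Y) (b2 := l2) (a3 := 0) (b3 := min l3 (σ - Y)) (w1 := w1) (w2 := w2)
    (w3 := w3) (T := s + σ) (by linarith [min_le_left l1 (σ - Y)]) (by linarith)
    (by linarith [min_le_right l3 (σ - Y)])
    (by rcases y4 with h | h <;>
          linarith [min_le_left l1 (σ - Y), min_le_right l1 (σ - Y), min_le_right l3 (σ - Y)])
    (by linarith)
  obtain ⟨R, hR0, ⟨hR1, hR1'⟩, ⟨hR2, hR2'⟩, ⟨hR3, hR3'⟩⟩ := pt (a1 := 0) (b1 := min l1 (σ - Z))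
    (a2 := 0) (b2 := min l2 (σ - Z)) (a3 := Z) (b3 := l3) (w1 := w1) (w2 := w2)
    (w3 := w3) (T := s + σ) (by linarith [min_le_left l1 (σ - Z)])
    (by linarith [min_le_right l2 (σ - Z)]) (by linarith)
    (by rcases z4 with h | h <;>
          linarith [min_le_left l1 (σ - Z), min_le_right l1 (σ - Z), min_le_right l2 (σ - Z)])
    (by linarith)
  refine ⟨![P, Q, R], ?_, ?_⟩
  · intro i
    fin_cases i
    · exact hP0
    · exact hQ0
    · exact hR0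
  · intro u1 u2 u3 g1 g1' g2 g2' g3 g3' g
    have t1 : u1 ≤ l1 := by rw [hl1]; exact le_min g1' (by linarith)
    have t2 : u2 ≤ l2 := by rw [hl2]; exact le_min g2' (by linarith)
    have t3 : u3 ≤ l3 := by rw [hl3]; exact le_min g3' (by linarith)
    rcases le_total Y u2 with hu | hu
    · refine ⟨1, ⟨?_, ?_⟩, ⟨?_, ?_⟩, ⟨?_, ?_⟩⟩
      · show Q 0 - w1 ≤ u1
        linarith
      · show u1 ≤ Q 0
        exact le_trans (le_min t1 (by linarith)) hQ1'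
      · show Q 1 - w2 ≤ u2
        linarith
      · show u2 ≤ Q 1
        linarith
      · show Q 2 - w3 ≤ u3
        linarith
      · show u3 ≤ Q 2
        exact le_trans (le_min t3 (by linarith)) hQ3'
    · rcases le_total Z u3 with hv | hv
      · refine ⟨2, ⟨?_, ?_⟩, ⟨?_, ?_⟩, ⟨?_, ?_⟩⟩
        · show R 0 - w1 ≤ u1
          linarith
        · show u1 ≤ R 0
          exact le_trans (le_min t1 (by linarith)) hR1'
        · show R 1 - w2 ≤ u2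
          linarith
        · show u2 ≤ R 1
          exact le_trans (le_min t2 (by linarith)) hR2'
        · show R 2 - w3 ≤ u3
          linarith
        · show u3 ≤ R 2
          linarith
      · refine ⟨0, ⟨?_, ?_⟩, ⟨?_, ?_⟩, ⟨?_, ?_⟩⟩
        · show P 0 - w1 ≤ u1
          have : max 0 (σ - Y - Z) ≤ u1 := max_le g1 (by linarith)
          linarith
        · show u1 ≤ P 0
          linarith
        · show P 1 - w2 ≤ u2
          have : max 0 (σ - l1 - Z) ≤ u2 := max_le g2 (by linarith)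
          linarith
        · show u2 ≤ P 1
          linarith
        · show P 2 - w3 ≤ u3
          have : max 0 (σ - l1 - Y) ≤ u3 := max_le g3 (by linarith)
          linarith
        · show u3 ≤ P 2
          linarith

lemma covRefl {w1 w2 w3 s l1 l2 l3 σ : ℝ}
    (h : Cov w1 w2 w3 (w1 + w2 + w3 - s) l1 l2 l3 (l1 + l2 + l3 - σ)) :
    Cov w1 w2 w3 s l1 l2 l3 σ := by
  obtain ⟨P, hP, hP'⟩ := h
  refine ⟨fun i => ![l1 - P i 0 + w1, l2 - P i 1 + w2, l3 - P i 2 + w3], fun i => ?_, ?_⟩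
  · show l1 - P i 0 + w1 + (l2 - P i 1 + w2) + (l3 - P i 2 + w3) = s + σ
    linarith [hP i]
  · intro u1 u2 u3 g1 g1' g2 g2' g3 g3' g
    obtain ⟨i, ⟨h1, h1'⟩, ⟨h2, h2'⟩, ⟨h3, h3'⟩⟩ := hP' (l1 - u1) (l2 - u2) (l3 - u3) (by linarith)
      (by linarith) (by linarith) (by linarith) (by linarith) (by linarith) (by linarith)
    refine ⟨i, ⟨?_, ?_⟩, ⟨?_, ?_⟩, ⟨?_, ?_⟩⟩
    · show l1 - P i 0 + w1 - w1 ≤ u1
      linarith
    · show u1 ≤ l1 - P i 0 + w1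
      linarith
    · show l2 - P i 1 + w2 - w2 ≤ u2
      linarith
    · show u2 ≤ l2 - P i 1 + w2
      linarith
    · show l3 - P i 2 + w3 - w3 ≤ u3
      linarith
    · show u3 ≤ l3 - P i 2 + w3
      linarith

lemma Adm.smul {a b c s : ℝ} (h : Adm a b c s) {t : ℝ} (ht : 0 ≤ t) :
    Adm (t * a) (t * b) (t * c) (t * s) := by
  obtain ⟨p1, p2, p3, p4, p5, p6, p7, p8, p9⟩ := h
  refine ⟨mul_nonneg ht p1, mul_nonneg ht p2, mul_nonneg ht p3, mul_le_mul_of_nonneg_left p4 ht,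
    mul_le_mul_of_nonneg_left p5 ht, mul_le_mul_of_nonneg_left p6 ht, ?_, ?_, ?_⟩
  · rw [← mul_add]; exact mul_le_mul_of_nonneg_left p7 ht
  · rw [← mul_add]; exact mul_le_mul_of_nonneg_left p8 ht
  · rw [← mul_add]; exact mul_le_mul_of_nonneg_left p9 ht

lemma covV {w1 w2 w3 s ε σ : ℝ} (hw : Adm w1 w2 w3 s) (h0 : 0 ≤ ε) (h1 : ε ≤ 1)
    (hσ : σ ≤ w1 + w2 + w3 - s + (ε * s - ε * w1)) :
    Cov w1 w2 w3 s (w1 - ε * w1) (w2 + ε * w2) (w3 + ε * w3) σ := by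
  refine covU (f := ε * s) hw (hw.smul h0) ?_ ?_ hσ
  · have h := hw.smul (show (0 : ℝ) ≤ 1 - ε by linarith)
    rw [show w1 - ε * w1 = (1 - ε) * w1 by ring, show w2 - ε * w2 = (1 - ε) * w2 by ring,
      show w3 - ε * w3 = (1 - ε) * w3 by ring, show s - ε * s = (1 - ε) * s by ring]
    exact h
  · rcases le_total (2 * ε) 1 with h2 | h2
    · left
      have h := hw.smul (show (0 : ℝ) ≤ 1 - 2 * ε by linarith)
      rw [show w1 - 2 * (ε * w1) = (1 - 2 * ε) * w1 by ring,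
        show w2 - 2 * (ε * w2) = (1 - 2 * ε) * w2 by ring,
        show w3 - 2 * (ε * w3) = (1 - 2 * ε) * w3 by ring,
        show s - 2 * (ε * s) = (1 - 2 * ε) * s by ring]
      exact h
    · right
      have h := hw.smul (show (0 : ℝ) ≤ 2 * ε - 1 by linarith)
      rw [show 2 * (ε * w1) - w1 = (2 * ε - 1) * w1 by ring,
        show 2 * (ε * w2) - w2 = (2 * ε - 1) * w2 by ring,
        show 2 * (ε * w3) - w3 = (2 * ε - 1) * w3 by ring,
        show 2 * (ε * s) - s = (2 * ε - 1) * s by ring]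
      exact h

/-- The covering lemma. -/
lemma cov {w1 w2 w3 s ε σ : ℝ} (hw : Adm w1 w2 w3 s) (h0 : 0 ≤ ε) (h1 : ε ≤ 1) :
    Cov w1 w2 w3 s (w1 - ε * w1) (w2 + ε * w2) (w3 + ε * w3) σ := by
  rcases le_total σ (w1 + w2 + w3 - s + (ε * s - ε * w1)) with h | h
  · exact covV hw h0 h1 h
  · refine covRefl (covV ?_ h0 h1 ?_)
    · obtain ⟨p1, p2, p3, p4, p5, p6, p7, p8, p9⟩ := hw
      exact ⟨p1, p2, p3, by linarith, by linarith, by linarith, by linarith, by linarith,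
        by linarith⟩
    · linarith


/-- The plane. -/
abbrev E := EuclideanSpace ℝ (Fin 2)

lemma aux0 (K : Set E) (ψ : Fin 3 → (E →ₗ[ℝ] ℝ)) (α w : Fin 3 → ℝ)
    (hsum : ∀ x, ψ 0 x + ψ 1 x + ψ 2 x = 0)
    (hsurj : ∀ a : Fin 3 → ℝ, a 0 + a 1 + a 2 = 0 → ∃ x, ∀ c, ψ c x = a c)
    (hmin : ∀ c, ∃ k ∈ K, ψ c k = α c) (hmax : ∀ c, ∃ k ∈ K, ψ c k = α c + w c)
    (hKb : ∀ x ∈ K, ∀ c, α c ≤ ψ c x ∧ ψ c x ≤ α c + w c)
    (hK : ∀ x, (∀ c, α c ≤ ψ c x ∧ ψ c x ≤ α c + w c) → x ∈ K)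
    (G : Set E) (x : Fin 3 → ℝ) (ε : ℝ) (h0 : 0 ≤ ε) (h1 : ε ≤ 1)
    (hG0 : ∀ a ∈ G, x 0 + ε * w 0 ≤ ψ 0 a ∧ ψ 0 a ≤ x 0 + w 0)
    (hG1 : ∀ a ∈ G, x 1 ≤ ψ 1 a ∧ ψ 1 a ≤ x 1 + (w 1 + ε * w 1))
    (hG2 : ∀ a ∈ G, x 2 ≤ ψ 2 a ∧ ψ 2 a ≤ x 2 + (w 2 + ε * w 2)) :
    ∃ P : Finset E, P.card ≤ 3 ∧ ∀ a ∈ G, ∃ p ∈ P, p ∈ a +ᵥ K := by
  classical
  have hadm : Adm (w 0) (w 1) (w 2) (-(α 0 + α 1 + α 2)) := by
    obtain ⟨k0, hk0, e0⟩ := hmin 0
    obtain ⟨k1, hk1, e1⟩ := hmin 1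
    obtain ⟨k2, hk2, e2⟩ := hmin 2
    obtain ⟨m0, hm0, f0⟩ := hmax 0
    obtain ⟨m1, hm1, f1⟩ := hmax 1
    obtain ⟨m2, hm2, f2⟩ := hmax 2
    have a1 := hKb k0 hk0
    have a2 := hKb k1 hk1
    have a3 := hKb k2 hk2
    have b1 := hKb m0 hm0
    have b2 := hKb m1 hm1
    have b3 := hKb m2 hm2
    have s1 := hsum k0
    have s2 := hsum k1
    have s3 := hsum k2
    have t1 := hsum m0
    have t2 := hsum m1
    have t3 := hsum m2
    refine ⟨?_, ?_, ?_, ?_, ?_, ?_, ?_, ?_, ?_⟩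
    · linarith [(a1 0).1, (a1 0).2]
    · linarith [(a2 1).1, (a2 1).2]
    · linarith [(a3 2).1, (a3 2).2]
    · linarith [(b1 1).1, (b1 2).1]
    · linarith [(b2 0).1, (b2 2).1]
    · linarith [(b3 0).1, (b3 1).1]
    · linarith [(a1 1).2, (a1 2).2]
    · linarith [(a2 0).2, (a2 2).2]
    · linarith [(a3 0).2, (a3 1).2]
  obtain ⟨P, hP, hP'⟩ := cov (σ := -(x 0 + ε * w 0) - x 1 - x 2) hadm h0 h1
  have hp : ∀ i : Fin 3, ∃ p : E, ψ 0 p = P i 0 + (x 0 + ε * w 0) + α 0 ∧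
      ψ 1 p = P i 1 + x 1 + α 1 ∧ ψ 2 p = P i 2 + x 2 + α 2 := by
    intro i
    obtain ⟨p, hp⟩ := hsurj ![P i 0 + (x 0 + ε * w 0) + α 0, P i 1 + x 1 + α 1, P i 2 + x 2 + α 2]
      (show P i 0 + (x 0 + ε * w 0) + α 0 + (P i 1 + x 1 + α 1) + (P i 2 + x 2 + α 2) = 0 by
        linarith [hP i])
    exact ⟨p, hp 0, hp 1, hp 2⟩
  choose p hp0 hp1 hp2 using hp
  refine ⟨Finset.univ.image p, ?_, ?_⟩
  · exact le_trans Finset.card_image_le (by simp)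
  · intro a ha
    have g0 := hG0 a ha
    have g1 := hG1 a ha
    have g2 := hG2 a ha
    have hs := hsum a
    obtain ⟨i, ⟨q0, q0'⟩, ⟨q1, q1'⟩, ⟨q2, q2'⟩⟩ := hP' (ψ 0 a - (x 0 + ε * w 0)) (ψ 1 a - x 1)
      (ψ 2 a - x 2) (by linarith [g0.1]) (by linarith [g0.2]) (by linarith [g1.1])
      (by linarith [g1.2]) (by linarith [g2.1]) (by linarith [g2.2]) (by linarith)
    refine ⟨p i, Finset.mem_image_of_mem _ (Finset.mem_univ _), ?_⟩
    rw [Set.mem_vadd_set]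
    refine ⟨p i - a, hK _ ?_, by simp⟩
    intro c
    rw [map_sub]
    fin_cases c
    · show α 0 ≤ ψ 0 (p i) - ψ 0 a ∧ ψ 0 (p i) - ψ 0 a ≤ α 0 + w 0
      rw [hp0]
      constructor <;> linarith
    · show α 1 ≤ ψ 1 (p i) - ψ 1 a ∧ ψ 1 (p i) - ψ 1 a ≤ α 1 + w 1
      rw [hp1]
      constructor <;> linarith
    · show α 2 ≤ ψ 2 (p i) - ψ 2 a ∧ ψ 2 (p i) - ψ 2 a ≤ α 2 + w 2
      rw [hp2]
      constructor <;> linarith

/-- The theorem for three functionals with sum zero. -/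
lemma aux1 {n : ℕ} (hn : 2 ≤ n) (K : Set E) (ψ : Fin 3 → (E →ₗ[ℝ] ℝ)) (α w : Fin 3 → ℝ)
    (hsum : ∀ x, ∑ c, ψ c x = 0)
    (hsurj : ∀ a : Fin 3 → ℝ, ∑ c, a c = 0 → ∃ x, ∀ c, ψ c x = a c)
    (hmin : ∀ c, ∃ k ∈ K, ψ c k = α c) (hmax : ∀ c, ∃ k ∈ K, ψ c k = α c + w c)
    (hKb : ∀ x ∈ K, ∀ c, α c ≤ ψ c x ∧ ψ c x ≤ α c + w c)
    (hK : ∀ x, (∀ c, α c ≤ ψ c x ∧ ψ c x ≤ α c + w c) → x ∈ K)
    (F : Fin n → Set E) (hF : ∀ i, (F i).Nonempty)
    (hpair : ∀ i j : Fin n, i ≠ j → ∀ a ∈ F i, ∀ b ∈ F j, ((a +ᵥ K) ∩ (b +ᵥ K)).Nonempty) :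
    ∃ m : Fin n, ∃ P : Finset E, P.card ≤ 3 ∧ ∀ i : Fin n, i ≠ m → ∀ a ∈ F i, ∃ p ∈ P,
      p ∈ a +ᵥ K := by
  classical
  have hdiff : ∀ c : Fin 3, ∀ i j : Fin n, i ≠ j → ∀ s ∈ ψ c '' F i, ∀ t ∈ ψ c '' F j,
      s - t ≤ w c := by
    rintro c i j hij s ⟨a, ha, rfl⟩ t ⟨b, hb, rfl⟩
    obtain ⟨z, hz1, hz2⟩ := hpair i j hij a ha b hb
    rw [Set.mem_vadd_set] at hz1 hz2
    obtain ⟨k, hk, rfl⟩ := hz1
    obtain ⟨k', hk', h⟩ := hz2
    have h2 : ψ c (b +ᵥ k') = ψ c (a +ᵥ k) := by rw [h]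
    rw [vadd_eq_add, vadd_eq_add, map_add, map_add] at h2
    have h3 := hKb k hk c
    have h4 := hKb k' hk' c
    linarith [h3.1, h4.2]
  have hod := fun c : Fin 3 => one_dim hn (fun i => ψ c '' F i) (fun i => (hF i).image _) (w c)
    (hdiff c)
  choose x e j he hall hoth using hod
  have hew : ∀ c, e c ≤ w c := by
    intro c
    have hex : ∃ i : Fin n, i ≠ j c := by
      by_cases hi : (⟨0, by omega⟩ : Fin n) = j c
      · refine ⟨⟨1, by omega⟩, fun h => ?_⟩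
        rw [← hi] at h
        simp at h
      · exact ⟨_, hi⟩
    obtain ⟨i, hi⟩ := hex
    obtain ⟨a, ha⟩ := hF i
    have := hoth c i hi _ ⟨a, ha, rfl⟩
    linarith [this.1, this.2]
  obtain ⟨c0, hc0⟩ := Finite.exists_max (fun c => e c / w c)
  have hε0 : 0 ≤ e c0 / w c0 := div_nonneg (he _) (le_trans (he _) (hew _))
  have hε1 : e c0 / w c0 ≤ 1 := div_le_one_of_le₀ (hew _) (le_trans (he _) (hew _))
  have hmul : ∀ c, e c / w c * w c = e c := by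
    intro c
    by_cases h : w c = 0
    · have h1 := he c
      have h2 := hew c
      rw [h] at h2 ⊢
      rw [mul_zero]
      linarith
    · exact div_mul_cancel₀ _ h
  have hle : ∀ c, e c ≤ e c0 / w c0 * w c := by
    intro c
    have h1 := mul_le_mul_of_nonneg_right (hc0 c) (le_trans (he c) (hew c))
    have h2 : e c / w c * w c ≤ e c0 / w c0 * w c := h1
    rw [hmul c] at h2
    exact h2
  obtain ⟨π, hπ⟩ : ∃ π : Equiv.Perm (Fin 3), π 0 = c0 := ⟨Equiv.swap 0 c0, Equiv.swap_apply_left _ _⟩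
  obtain ⟨P, hP, hP'⟩ := aux0 K (fun c => ψ (π c)) (fun c => α (π c)) (fun c => w (π c))
    (fun y => by
      have h := hsum y
      rw [← Equiv.sum_comp π, Fin.sum_univ_three] at h
      exact h)
    (fun a ha => by
      obtain ⟨y, hy⟩ := hsurj (fun c => a (π.symm c)) (by
        rw [Equiv.sum_comp π.symm a, Fin.sum_univ_three]
        exact ha)
      exact ⟨y, fun c => by rw [hy (π c), Equiv.symm_apply_apply]⟩)
    (fun c => hmin (π c)) (fun c => hmax (π c)) (fun y hy c => hKb y hy (π c))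
    (fun y hy => hK y (fun c => by
      have h := hy (π.symm c)
      simp only [Equiv.apply_symm_apply] at h
      exact h))
    {a | ∃ i, i ≠ j c0 ∧ a ∈ F i} (fun c => x (π c)) (e c0 / w c0) hε0 hε1
    (by
      rintro a ⟨i, hi, ha⟩
      have h := hoth c0 i hi (ψ c0 a) ⟨a, ha, rfl⟩
      rw [hπ, hmul c0]
      exact h)
    (by
      rintro a ⟨i, hi, ha⟩
      have h := hall (π 1) i (ψ (π 1) a) ⟨a, ha, rfl⟩
      have h2 := hle (π 1)
      exact ⟨h.1, by linarith [h.2]⟩)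
    (by
      rintro a ⟨i, hi, ha⟩
      have h := hall (π 2) i (ψ (π 2) a) ⟨a, ha, rfl⟩
      have h2 := hle (π 2)
      exact ⟨h.1, by linarith [h.2]⟩)
  exact ⟨j c0, P, hP, fun i hi a ha => hP' a ⟨i, hi, ha⟩⟩

lemma mul_strip {K : Set E} {φ : E →ₗ[ℝ] ℝ} {x : E}
    (h : ∃ k ∈ K, ∃ k' ∈ K, φ k ≤ φ x ∧ φ x ≤ φ k') (t : ℝ) :
    ∃ k ∈ K, ∃ k' ∈ K, t * φ k ≤ t * φ x ∧ t * φ x ≤ t * φ k' := by
  obtain ⟨k, hk, k', hk', h1, h2⟩ := h
  rcases le_total 0 t with ht | ht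
  · exact ⟨k, hk, k', hk', mul_le_mul_of_nonneg_left h1 ht, mul_le_mul_of_nonneg_left h2 ht⟩
  · exact ⟨k', hk', k, hk, mul_le_mul_of_nonpos_left h2 ht, mul_le_mul_of_nonpos_left h1 ht⟩

/-- Reduction of three functionals, the first two independent, to functionals with sum zero. -/
lemma lin01 (K : Set E) (φ : Fin 3 → (E →ₗ[ℝ] ℝ)) (e0 e1 : E) (hE : ∀ x : E, x = x 0 • e0 + x 1 • e1)
    (hd : φ 0 e0 * φ 1 e1 - φ 0 e1 * φ 1 e0 ≠ 0)
    (hst : ∀ x, (∀ c, ∃ k ∈ K, ∃ k' ∈ K, φ c k ≤ φ c x ∧ φ c x ≤ φ c k') → x ∈ K) :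
    ∃ ψ : Fin 3 → (E →ₗ[ℝ] ℝ), (∀ x, ∑ c, ψ c x = 0) ∧
      (∀ a : Fin 3 → ℝ, ∑ c, a c = 0 → ∃ x, ∀ c, ψ c x = a c) ∧
      (∀ x, (∀ c, ∃ k ∈ K, ∃ k' ∈ K, ψ c k ≤ ψ c x ∧ ψ c x ≤ ψ c k') → x ∈ K) := by
  set D := φ 0 e0 * φ 1 e1 - φ 0 e1 * φ 1 e0 with hD
  have hsurj : ∀ a b : ℝ, ∃ x, φ 0 x = a ∧ φ 1 x = b := by
    intro a b
    refine ⟨((a * φ 1 e1 - b * φ 0 e1) / D) • e0 + ((b * φ 0 e0 - a * φ 1 e0) / D) • e1, ?_, ?_⟩
    · rw [map_add, map_smul, map_smul, smul_eq_mul, smul_eq_mul]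
      field_simp
      rw [hD]
      ring
    · rw [map_add, map_smul, map_smul, smul_eq_mul, smul_eq_mul]
      field_simp
      rw [hD]
      ring
  obtain ⟨μ, hμ⟩ : ∃ μ, μ = (φ 2 e0 * φ 1 e1 - φ 2 e1 * φ 1 e0) / D := ⟨_, rfl⟩
  obtain ⟨ν, hν⟩ : ∃ ν, ν = (φ 0 e0 * φ 2 e1 - φ 0 e1 * φ 2 e0) / D := ⟨_, rfl⟩
  have h2 : ∀ x, φ 2 x = μ * φ 0 x + ν * φ 1 x := by
    intro x
    have hx : ∀ c, φ c x = x 0 * φ c e0 + x 1 * φ c e1 := by
      intro c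
      conv_lhs => rw [hE x]
      rw [map_add, map_smul, map_smul, smul_eq_mul, smul_eq_mul]
    rw [hx 0, hx 1, hx 2, hμ, hν]
    field_simp
    rw [hD]
    ring
  by_cases hμ0 : μ = 0
  · refine ⟨![φ 0, φ 1, -(φ 0 + φ 1)], ?_, ?_, ?_⟩
    · intro x
      rw [Fin.sum_univ_three]
      show φ 0 x + φ 1 x + (-(φ 0 x + φ 1 x)) = 0
      ring
    · intro a ha
      rw [Fin.sum_univ_three] at ha
      obtain ⟨x, hx0, hx1⟩ := hsurj (a 0) (a 1)
      refine ⟨x, fun c => ?_⟩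
      fin_cases c
      · exact hx0
      · exact hx1
      · show -(φ 0 x + φ 1 x) = a 2
        rw [hx0, hx1]
        linarith
    · intro x hx
      refine hst x fun c => ?_
      have q0 := hx 0
      have q1 := hx 1
      fin_cases c
      · exact q0
      · exact q1
      · obtain ⟨k, hk, k', hk', r1, r2⟩ := mul_strip (φ := φ 1) q1 ν
        refine ⟨k, hk, k', hk', ?_, ?_⟩
        · show φ 2 k ≤ φ 2 x
          rw [h2, h2, hμ0]
          linarith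
        · show φ 2 x ≤ φ 2 k'
          rw [h2, h2, hμ0]
          linarith
  by_cases hν0 : ν = 0
  · refine ⟨![φ 0, φ 1, -(φ 0 + φ 1)], ?_, ?_, ?_⟩
    · intro x
      rw [Fin.sum_univ_three]
      show φ 0 x + φ 1 x + (-(φ 0 x + φ 1 x)) = 0
      ring
    · intro a ha
      rw [Fin.sum_univ_three] at ha
      obtain ⟨x, hx0, hx1⟩ := hsurj (a 0) (a 1)
      refine ⟨x, fun c => ?_⟩
      fin_cases c
      · exact hx0
      · exact hx1
      · show -(φ 0 x + φ 1 x) = a 2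
        rw [hx0, hx1]
        linarith
    · intro x hx
      refine hst x fun c => ?_
      have q0 := hx 0
      have q1 := hx 1
      fin_cases c
      · exact q0
      · exact q1
      · obtain ⟨k, hk, k', hk', r1, r2⟩ := mul_strip (φ := φ 0) q0 μ
        refine ⟨k, hk, k', hk', ?_, ?_⟩
        · show φ 2 k ≤ φ 2 x
          rw [h2, h2, hν0]
          linarith
        · show φ 2 x ≤ φ 2 k'
          rw [h2, h2, hν0]
          linarith
  refine ⟨![μ • φ 0, ν • φ 1, -φ 2], ?_, ?_, ?_⟩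
  · intro x
    rw [Fin.sum_univ_three]
    show μ * φ 0 x + ν * φ 1 x + (-(φ 2 x)) = 0
    rw [h2]
    ring
  · intro a ha
    rw [Fin.sum_univ_three] at ha
    obtain ⟨x, hx0, hx1⟩ := hsurj (a 0 / μ) (a 1 / ν)
    refine ⟨x, fun c => ?_⟩
    fin_cases c
    · show μ * φ 0 x = a 0
      rw [hx0]
      field_simp
    · show ν * φ 1 x = a 1
      rw [hx1]
      field_simp
    · show -(φ 2 x) = a 2
      rw [h2, hx0, hx1]
      have e1 : μ * (a 0 / μ) = a 0 := by field_simp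
      have e2 : ν * (a 1 / ν) = a 1 := by field_simp
      linarith
  · intro x hx
    refine hst x fun c => ?_
    have q0 := mul_strip (hx 0) μ⁻¹
    have q1 := mul_strip (hx 1) ν⁻¹
    have q2 := mul_strip (hx 2) (-1)
    fin_cases c
    · obtain ⟨k, hk, k', hk', r1, r2⟩ := q0
      have e : ∀ y, μ⁻¹ * (μ * φ 0 y) = φ 0 y := fun y => by field_simp
      change μ⁻¹ * (μ * φ 0 k) ≤ μ⁻¹ * (μ * φ 0 x) at r1
      change μ⁻¹ * (μ * φ 0 x) ≤ μ⁻¹ * (μ * φ 0 k') at r2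
      rw [e, e] at r1 r2
      exact ⟨k, hk, k', hk', r1, r2⟩
    · obtain ⟨k, hk, k', hk', r1, r2⟩ := q1
      have e : ∀ y, ν⁻¹ * (ν * φ 1 y) = φ 1 y := fun y => by field_simp
      change ν⁻¹ * (ν * φ 1 k) ≤ ν⁻¹ * (ν * φ 1 x) at r1
      change ν⁻¹ * (ν * φ 1 x) ≤ ν⁻¹ * (ν * φ 1 k') at r2
      rw [e, e] at r1 r2
      exact ⟨k, hk, k', hk', r1, r2⟩
    · obtain ⟨k, hk, k', hk', r1, r2⟩ := q2
      have e : ∀ y, (-1 : ℝ) * (-(φ 2 y)) = φ 2 y := fun y => by ring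
      change (-1 : ℝ) * (-(φ 2 k)) ≤ (-1 : ℝ) * (-(φ 2 x)) at r1
      change (-1 : ℝ) * (-(φ 2 x)) ≤ (-1 : ℝ) * (-(φ 2 k')) at r2
      rw [e, e] at r1 r2
      exact ⟨k, hk, k', hk', r1, r2⟩

lemma perm_exists : ∀ c d : Fin 3, c ≠ d → ∃ π : Equiv.Perm (Fin 3), π 0 = c ∧ π 1 = d := by
  decide

/-- Reduction of three functionals to functionals with sum zero. -/
lemma lin (K : Set E) (hc : IsCompact K) (hne : K.Nonempty) (φ : Fin 3 → (E →ₗ[ℝ] ℝ))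
    (hst : ∀ x, (∀ c, ∃ k ∈ K, ∃ k' ∈ K, φ c k ≤ φ c x ∧ φ c x ≤ φ c k') → x ∈ K) :
    ∃ ψ : Fin 3 → (E →ₗ[ℝ] ℝ), (∀ x, ∑ c, ψ c x = 0) ∧
      (∀ a : Fin 3 → ℝ, ∑ c, a c = 0 → ∃ x, ∀ c, ψ c x = a c) ∧
      (∀ x, (∀ c, ∃ k ∈ K, ∃ k' ∈ K, ψ c k ≤ ψ c x ∧ ψ c x ≤ ψ c k') → x ∈ K) := by
  classical
  set e0 : E := EuclideanSpace.single 0 1 with he0
  set e1 : E := EuclideanSpace.single 1 1 with he1
  have hE : ∀ x : E, x = x 0 • e0 + x 1 • e1 := by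
    intro x
    ext i
    fin_cases i
    · simp [he0, he1]
    · simp [he0, he1]
  by_cases hdet : ∃ c d : Fin 3, φ c e0 * φ d e1 - φ c e1 * φ d e0 ≠ 0
  · obtain ⟨c, d, hcd⟩ := hdet
    have hcd' : c ≠ d := by
      rintro rfl
      exact hcd (by ring)
    obtain ⟨π, h0, h1⟩ := perm_exists c d hcd'
    refine lin01 K (fun c => φ (π c)) e0 e1 hE (by rw [h0, h1]; exact hcd) (fun x hx => ?_)
    refine hst x fun c => ?_
    have h := hx (π.symm c)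
    simp only [Equiv.apply_symm_apply] at h
    exact h
  · exfalso
    push Not at hdet
    -- a vector killed by all functionals
    obtain ⟨v, hv, hv0⟩ : ∃ v : E, v ≠ 0 ∧ ∀ d, φ d v = 0 := by
      by_cases hz : ∃ c, φ c e0 ≠ 0 ∨ φ c e1 ≠ 0
      · obtain ⟨c, hcz⟩ := hz
        refine ⟨(-(φ c e1)) • e0 + (φ c e0) • e1, ?_, ?_⟩
        · intro h
          have h0 := congrArg (fun y : E => y 0) h
          have h1 := congrArg (fun y : E => y 1) h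
          simp [he0, he1] at h0 h1
          rcases hcz with h | h
          · exact h h1
          · exact h h0
        · intro d
          rw [map_add, map_smul, map_smul, smul_eq_mul, smul_eq_mul]
          have := hdet c d
          linarith
      · push Not at hz
        refine ⟨e0, ?_, fun d => (hz d).1⟩
        intro h
        have h0 := congrArg (fun y : E => y 0) h
        simp [he0] at h0
    obtain ⟨x0, hx0⟩ := hne
    obtain ⟨C, hC⟩ := hc.isBounded.exists_norm_le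
    have hvn : 0 < ‖v‖ := norm_pos_iff.2 hv
    have hmem : x0 + ((C + ‖x0‖ + 1) / ‖v‖) • v ∈ K := by
      refine hst _ fun c => ⟨x0, hx0, x0, hx0, ?_, ?_⟩
      · rw [map_add, map_smul, hv0 c, smul_zero, add_zero]
      · rw [map_add, map_smul, hv0 c, smul_zero, add_zero]
    have h1 := hC _ hmem
    have h2 : ‖((C + ‖x0‖ + 1) / ‖v‖) • v‖ ≤ ‖x0 + ((C + ‖x0‖ + 1) / ‖v‖) • v‖ + ‖x0‖ := by
      have := norm_sub_le (x0 + ((C + ‖x0‖ + 1) / ‖v‖) • v) x0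
      rwa [add_sub_cancel_left] at this
    have hC0 : 0 ≤ C := le_trans (norm_nonneg _) (hC _ hx0)
    rw [norm_smul, Real.norm_of_nonneg (by positivity), div_mul_cancel₀ _ hvn.ne'] at h2
    linarith

/-- Let `K` be a compact set in the plane which is the intersection of three strips
`α c ≤ φ c x ≤ β c` (`φ c` arbitrary linear functionals, so fewer than three strips are allowed too):
a triangle, a trapezoid, a parallelogram, a hexagon with three pairs of parallel sides, ... .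
For all `n ≥ 2` and all nonempty families `F 0, ..., F (n - 1)` of translates of `K` such that members
of different families meet, three points pierce all the families except one. -/
theorem result (n : ℕ) (hn : 2 ≤ n)
    (K : Set (EuclideanSpace ℝ (Fin 2))) (hc : IsCompact K)
    (φ : Fin 3 → (EuclideanSpace ℝ (Fin 2) →ₗ[ℝ] ℝ)) (α β : Fin 3 → ℝ)
    (hK : K = {x | ∀ c, α c ≤ φ c x ∧ φ c x ≤ β c})
    (F : Fin n → Set (EuclideanSpace ℝ (Fin 2))) (hF : ∀ i, (F i).Nonempty)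
    (hpair : ∀ i j : Fin n, i ≠ j → ∀ a ∈ F i, ∀ b ∈ F j, ((a +ᵥ K) ∩ (b +ᵥ K)).Nonempty) :
    ∃ m : Fin n, ∃ P : Finset (EuclideanSpace ℝ (Fin 2)), P.card ≤ 3 ∧
      ∀ i : Fin n, i ≠ m → ∀ a ∈ F i, ∃ p ∈ P, p ∈ a +ᵥ K := by
  classical
  have hne : K.Nonempty := by
    obtain ⟨a, ha⟩ := hF ⟨0, by omega⟩
    obtain ⟨b, hb⟩ := hF ⟨1, by omega⟩
    obtain ⟨z, hz, _⟩ := hpair ⟨0, by omega⟩ ⟨1, by omega⟩ (by simp) a ha b hb
    rw [Set.mem_vadd_set] at hz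
    obtain ⟨k, hk, _⟩ := hz
    exact ⟨k, hk⟩
  have hst : ∀ x, (∀ c, ∃ k ∈ K, ∃ k' ∈ K, φ c k ≤ φ c x ∧ φ c x ≤ φ c k') → x ∈ K := by
    intro x hx
    rw [hK]
    intro c
    obtain ⟨k, hk, k', hk', h1, h2⟩ := hx c
    rw [hK] at hk hk'
    exact ⟨le_trans (hk c).1 h1, le_trans h2 (hk' c).2⟩
  obtain ⟨ψ, hsum, hsurj, hst'⟩ := lin K hc hne φ hst
  have hcont : ∀ c, ContinuousOn (ψ c) K := fun c =>
    (LinearMap.continuous_of_finiteDimensional (ψ c)).continuousOn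
  have hmin := fun c => hc.exists_isMinOn hne (hcont c)
  have hmax := fun c => hc.exists_isMaxOn hne (hcont c)
  choose a ha ha' using hmin
  choose b hb hb' using hmax
  refine aux1 hn K ψ (fun c => ψ c (a c))
    (fun c => ψ c (b c) - ψ c (a c)) hsum hsurj (fun c => ⟨a c, ha c, rfl⟩)
    (fun c => ⟨b c, hb c, by ring⟩) (fun x hx c => ⟨ha' c hx, ?_⟩) (fun x hx => ?_) F hF hpair
  · have h := hb' c hx
    change ψ c x ≤ ψ c (b c) at h
    linarith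
  · refine hst' x fun c => ⟨a c, ha c, b c, hb c, (hx c).1, ?_⟩
    linarith [(hx c).2]

end Pool.Agent.Results.MP_71837e_co.ThreeStrips
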